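import Pool.Agent.Lib_helper39.MQ.Defs
import Pool.Agent.Lib_helper10.T2.Defs
import Pool.Agent.Lib_helper10.T2F.LEV

/-!
# AQ, part II (MP_892e4c_nt): Matomaki and Radziwill for orders. Definitions.

`Ang b c`: angular systems. `A : Ang b c` has a window `A.wd` for the elements of positive norm of
`ℤ[τ]`, `τ² = b τ - c`, modulo a group of units of norm one, `A.rp v` is the representative of `v` in
the window and `A.u` an additive coordinate modulo one. Two instances (`ang_sys`, `ang_full`): a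
`S : Sys b c` of `MQ/Defs.lean`, and, for negative discriminant, all elements `v ≠ 0`, with the argument
modulo `2π` (`A.rp v = v`).
-/

set_option autoImplicit false

namespace Pool.Agent.AQM

open Pool.Agent.MQ Pool.Agent.T2 Filter Topology MeasureTheory

/-- the integer `n` divides `v` -/
def dv (n : ℤ) (v : El) : Prop := n ∣ v.1 ∧ n ∣ v.2

/-- angular systems, without the counting axioms -/
structure Ang0 (b c : ℤ) where
  /-- the underlying window -/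
  S : Sys b c
  /-- `1` or `2` -/
  mu : ℕ
  mu_pos : 1 ≤ mu
  wd : El → Prop
  /-- the representative in the window -/
  rp : El → El
  /-- the coordinate -/
  u : El → ℝ
  δ : ℝ
  δ_pos : 0 < δ
  δ_one : δ ≤ 1
  wd_nm : ∀ v, wd v → 0 < nm b c v
  rp_wd : ∀ v, 0 < nm b c v → wd (rp v)
  rp_self : ∀ v, wd v → rp v = v
  rp_unit : ∀ v, 0 < nm b c v → ∃ w : El, nm b c w = 1 ∧
    (∀ z, 0 < nm b c z → rp (ml b c w z) = rp z) ∧ rp v = ml b c w v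
  wd_sm : ∀ (v : El) (n : ℕ), 1 ≤ n → (wd (sm n v) ↔ wd v)
  u_sm : ∀ (v : El) (n : ℕ), wd v → 1 ≤ n → u (sm n v) = u v
  u_hom : ∀ v w, wd v → wd w → ∃ n : ℤ, u (rp (ml b c v w)) = u v + u w + n
  u_S : ∀ v, wd v → ∃ n : ℤ, (mu : ℝ) * u v = S.u (S.rp v) + n
  fin : ∀ X : ℝ, {v : El | wd v ∧ (nm b c v : ℝ) ≤ X}.Finite
  par : ∀ v w, wd v → wd w → Pm v → Pm w → dt v w = 0 → w = v ∨ w = -v
  sep : ∀ X : ℝ, 1 ≤ X → ∀ v w, wd v → wd w → Pm v → Pm w → v ≠ w → (nm b c v : ℝ) ≤ X →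
    (nm b c w : ℝ) ≤ X → ∀ n : ℤ, δ / X ≤ |u v - u w + n|

/-- the elements of the window of norm at most `X` -/
noncomputable def Ang0.MF {b c : ℤ} (A : Ang0 b c) (X : ℝ) : Finset El := (A.fin X).toFinset

open Classical in
/-- angular systems -/
structure Ang (b c : ℤ) extends Ang0 b c where
  /-- elements in a residue class modulo `q`, on a line modulo `d` -/
  cnt : ∃ κ : ℝ, 0 < κ ∧ ∀ q : ℕ, 1 ≤ q → ∃ C : ℝ, 1 ≤ C ∧
    ∀ (v₀ r : El) (d : ℕ), 1 ≤ d → Nat.Coprime d q → (∀ l : ℕ, l.Prime → l ∣ d → ¬ dv l r) →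
    ∀ x : ℝ, 1 ≤ x →
    |(((toAng0.MF x).filter (fun w => dv q (w - v₀) ∧ (d : ℤ) ∣ dt w r)).card : ℝ) -
      κ * x / ((q : ℝ) ^ 2 * d)| ≤ C * Real.sqrt x
  /-- character sums over residue classes -/
  exps : ∃ κ : ℝ, 0 < κ ∧ κ ≤ 1 ∧ ∀ q : ℕ, 1 ≤ q → ∃ X₀ : ℝ, ∀ X : ℝ, X₀ ≤ X →
    ∀ k : ℤ, k ≠ 0 → |(k : ℝ)| ≤ X ^ 3 → ∀ v₀ : El,
      ‖∑ v ∈ (toAng0.MF X).filter (fun v => dv q (v - v₀)), ex (k * u v)‖ ≤ X ^ (1 - κ)

/-- the ideal over `p` which contains `π` divides `v` -/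
def Dv (p : ℕ) (π v : El) : Prop := (p : ℤ) ∣ dt v π

/-- a condition modulo `q` -/
def Per (q : ℕ) (V : El → Prop) : Prop := ∀ v w : El, dv q (v - w) → V v → V w

/-- a class modulo `M`: a group of residue classes, invariant under the units of the window -/
structure Cls {b c : ℤ} (A : Ang b c) (M : ℕ) (T : El → Prop) : Prop where
  M1 : 1 ≤ M
  per : Per M T
  one : T (1, 0)
  mul : ∀ v w, T v → T w → T (ml b c v w)
  div : ∀ v w, T v → T (ml b c v w) → T w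
  rp : ∀ v, 0 < nm b c v → (T (A.rp v) ↔ T v)
  cop : ∀ v, T v → Int.gcd (nm b c v) M = 1

open Classical in
/-- the elements of the window of norm at most `x` with `V` which are divisible only by primes
dividing `q`. `PS A 1 (fun _ => True) x`: the primitive elements; `PS A M T x`: primitive elements in
the class `T` -/
noncomputable def PS {b c : ℤ} (A : Ang b c) (q : ℕ) (V : El → Prop) (x : ℝ) : Finset El :=
  (A.MF x).filter (fun w => V w ∧ ∀ l : ℕ, l.Prime → dv l w → l ∣ q)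

/-- the primitive elements of the window -/
noncomputable def PF {b c : ℤ} (A : Ang b c) (x : ℝ) : Finset El := PS A 1 (fun _ => True) x

/-- `r w = k₀ z` with `z` in the class `T`. This is a condition modulo `M k₀`. -/
def QC (b c : ℤ) (k₀ : ℕ) (r : El) (T : El → Prop) (w : El) : Prop :=
  ∃ z : El, ml b c r w = sm k₀ z ∧ T z

/-- typed prime elements: `nm (π p) = k₀ p`, `π p = r` modulo `M k₀`. If `p` divides the norm of
`z` and `Dv p (π p) z` then `k₀ z = π p * w` with `w = conj (π p) z / p`. -/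
structure TP {b c : ℤ} (A : Ang b c) (M : ℕ) (B : Finset ℕ) (k₀ : ℕ) (r : El) (π : ℕ → El) :
    Prop where
  k1 : 1 ≤ k₀
  kM : k₀ ∣ M
  prime : ∀ p ∈ B, p.Prime
  m4 : ∀ p ∈ B, p % 4 = 1
  ndM : ∀ p ∈ B, ¬ p ∣ M
  ndD : ∀ p ∈ B, ¬ (p : ℤ) ∣ dsc b c
  wd : ∀ p ∈ B, A.wd (π p)
  nm : ∀ p ∈ B, nm b c (π p) = k₀ * p
  res : ∀ p ∈ B, dv ((M * k₀ : ℕ) : ℤ) (π p - r)

open Classical in
/-- the number of the `p ∈ B` whose ideal divides `z` -/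
noncomputable def omB (π : ℕ → El) (B : Finset ℕ) (z : El) : ℝ :=
  ((B.filter (fun p => Dv p (π p) z)).card : ℝ)

/-- the twisted sum over `PS A q V x` -/
noncomputable def Sv {b c : ℤ} (A : Ang b c) (h : ℕ → ℤ) (q : ℕ) (V : El → Prop) (k : ℤ) (x : ℝ) :
    ℂ := ∑ w ∈ PS A q V x, (gg b c h w : ℂ) * ex (k * A.u w)

/-- the twisted sum over prime elements -/
noncomputable def Qv {b c : ℤ} (A : Ang b c) (h : ℕ → ℤ) (π : ℕ → El) (k : ℤ) (B : Finset ℕ) : ℂ :=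
  ∑ p ∈ B, (gg b c h (π p) : ℂ) * ex (k * A.u (π p))

open Classical in
/-- local constancy of `gg h` on the class `T`, at the single scale `N`: at most `N / H` jumps -/
structure LocH {b c : ℤ} (A : Ang b c) (h : ℕ → ℤ) (M : ℕ) (T : El → Prop) (N H ε : ℝ) (F : ℝ → ℝ) :
    Prop where
  per : ∀ t, F (t + 1) = F t
  meas : Measurable F
  pm : ∀ t, F t = 1 ∨ F t = -1
  jump : ∃ J : Finset ℝ, (J.card : ℝ) ≤ N / H ∧ ∀ s t : ℝ, s ≤ t →
    (∀ j ∈ J, ∀ n : ℤ, ¬ (s < j + n ∧ j + n ≤ t)) → F s = F t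
  good : (((PS A M T N).filter (fun m => F (A.u m) ≠ gg b c h m)).card : ℝ) ≤ ε * N

/-- the Fejer mean of `F` of order `K` -/
noncomputable def Fm (F : ℝ → ℝ) (K t : ℝ) : ℂ :=
  ∑ k ∈ KK K, ((1 - |(k : ℝ)| / ⌈K⌉ : ℝ) : ℂ) * fc F k * ex (k * t)

/-- `π (q 0) * (π (q 1) * ( .. * w))` -/
def pr (b c : ℤ) (π : ℕ → El) : ∀ {l : ℕ}, (Fin l → ℕ) → El → El
  | 0, _, w => w
  | _ + 1, q, w => ml b c (π (q 0)) (pr b c π (fun i => q i.succ) w)

open Classical in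
/-- pairs of parallel products -/
noncomputable def ParD {b c : ℤ} (A : Ang b c) (M : ℕ) (B : Finset ℕ) (π : ℕ → El) (l l' : ℕ)
    (x x' : ℝ) : Finset (((Fin l → ℕ) × El) × ((Fin l' → ℕ) × El)) :=
  ((Fintype.piFinset (fun _ : Fin l => B) ×ˢ PS A M (fun _ => True) x) ×ˢ
    (Fintype.piFinset (fun _ : Fin l' => B) ×ˢ PS A M (fun _ => True) x')).filter (fun t =>
      dt (pr b c π t.1.1 t.1.2) (pr b c π t.2.1 t.2.2) = 0)

/-- `M` is a modulus for which typed subsets exist -/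
def GoodM {b c : ℤ} (A : Ang b c) (M : ℕ) : Prop := 1 ≤ M ∧ dsc b c ≠ 0 ∧ ∃ n : ℕ, 1 ≤ n ∧
  ∀ E : Finset ℕ, (∀ p ∈ E, p.Prime ∧ p % (4 * (dsc b c).natAbs) = 1 ∧ M < p) →
  ∀ w : ℕ → ℝ, (∀ p, 0 ≤ w p) → ∃ B : Finset ℕ, B ⊆ E ∧ ∃ (k₀ : ℕ) (r : El) (π : ℕ → El),
    TP A M B k₀ r π ∧ ∑ p ∈ E, w p ≤ n * ∑ p ∈ B, w p

/-- split primes: `(t, 1)` and `(-b - t, 1)` are the two isotropic lines -/
def Spl (b c : ℤ) (p : ℕ) : Prop := p.Prime ∧ p ≠ 2 ∧ ¬ (p : ℤ) ∣ dsc b c ∧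
  ∃ t : ℤ, (p : ℤ) ∣ fv b c t

/-- the second factors, for the dyadic block `(2^v, 2^(v+1)]` -/
noncomputable def Wv {b c : ℤ} (A : Ang b c) (M : ℕ) (T : El → Prop) (k₀ : ℕ) (r : El) (v : ℕ)
    (N : ℝ) : Finset El := PS A (M * k₀) (QC b c k₀ r T) (k₀ * N / 2 ^ (v + 1))

/-- dyadic blocks of typed primes between `N^(9/25)` and `N^(2/5)` -/
structure Blks {b c : ℤ} (A : Ang b c) (M : ℕ) (N : ℝ) (I : Finset ℕ) (B : ℕ → Finset ℕ)
    (k₀ : ℕ → ℕ) (r : ℕ → El) (π : ℕ → ℕ → El) : Prop where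
  lo : ∀ v ∈ I, N ^ (9 / 25 : ℝ) ≤ 2 ^ v
  hi : ∀ v ∈ I, (2 : ℝ) ^ (v + 1) ≤ N ^ (2 / 5 : ℝ)
  tp : ∀ v ∈ I, TP A M (B v) (k₀ v) (r v) (π v)
  rng : ∀ v ∈ I, ∀ p ∈ B v, (2 : ℝ) ^ v < p ∧ (p : ℝ) ≤ 2 ^ (v + 1)

/-- frequencies with a large block of level `j` (typed level sets `B j`) -/
def l4Bad {b c : ℤ} (A : Ang b c) (h : ℕ → ℤ) (B : ℕ → Finset ℕ) (π : ℕ → ℕ → El) (L c' α : ℝ)
    (j : ℕ) (k : ℤ) : Prop :=
  ∃ u < levV L c' j, (levR c' j ^ u) ^ (1 - levA α j) < ‖Qv A h (π j) k (blk (levR c' j) u (B j))‖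

/-- typed level sets -/
structure LevT {b c : ℤ} (A : Ang b c) (M : ℕ) (L : ℝ) (B : ℕ → Finset ℕ) (k₀ : ℕ → ℕ)
    (r : ℕ → El) (π : ℕ → ℕ → El) : Prop where
  tp : ∀ j, TP A M (B j) (k₀ j) (r j) (π j)
  sub : ∀ j, B j ⊆ levB L j

end Pool.Agent.AQM
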