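import Pool.Agent.Lib_helper39.AQM.Defs
import Pool.Agent.Lib_helper39.MQX.SBA
import Pool.Agent.Lib_helper39.MQX.SBC
import Pool.Agent.Lib_helper39.MQX.PAR

/-! Representatives of angular systems (block SBA of MQX for `Ang`), namespace `Pool.Agent.AQM.AB`. -/

set_option autoImplicit false

namespace Pool.Agent.AQM.AB

open Pool.Agent.MQ Pool.Agent.AQM

section
variable {b c : ℤ} (A : Ang b c)

theorem rp_nm {v : El} (hv : 0 < nm b c v) : nm b c (A.rp v) = nm b c v := by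
  obtain ⟨w, h1, _, h3⟩ := A.rp_unit v hv
  rw [h3, nm_ml, h1, one_mul]

theorem rp_eq {v w : El} (hv : 0 < nm b c v) (hw : 0 < nm b c w) (h : A.rp v = A.rp w) :
    ∃ o : El, nm b c o = 1 ∧ (∀ z, 0 < nm b c z → A.rp (ml b c o z) = A.rp z) ∧
      w = ml b c o v := by
  obtain ⟨o1, h1, h2, h3⟩ := A.rp_unit v hv
  obtain ⟨o2, g1, g2, g3⟩ := A.rp_unit w hw
  refine ⟨ml b c (cj b o2) o1, ?_, ?_, ?_⟩
  · rw [nm_ml, nm_cj, h1, g1, one_mul]
  · intro z hz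
    rw [ml_assoc]
    have hy : 0 < nm b c (ml b c o1 z) := by
      rw [nm_ml, h1, one_mul]
      exact hz
    have hy' : 0 < nm b c (ml b c (cj b o2) (ml b c o1 z)) := by
      rw [nm_ml, nm_cj, g1, one_mul]
      exact hy
    rw [← g2 _ hy', sba_ml_cj g1]
    exact h2 z hz
  · rw [ml_assoc, ← h3, h, g3, sba_cj_ml g1]

theorem rp_ml_rp {v w : El} (hv : 0 < nm b c v) (hw : 0 < nm b c w) :
    A.rp (ml b c (A.rp v) w) = A.rp (ml b c v w) := by
  obtain ⟨o, _, h2, h3⟩ := A.rp_unit v hv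
  rw [h3, ml_assoc]
  apply h2
  rw [nm_ml]
  positivity

theorem rp_inj {s v w : El} (hs : 0 < nm b c s) (hv : A.wd v) (hw : A.wd w)
    (h : A.rp (ml b c s v) = A.rp (ml b c s w)) : v = w := by
  have hv' := A.wd_nm _ hv
  have hw' := A.wd_nm _ hw
  have h1 : 0 < nm b c (ml b c s v) := by
    rw [nm_ml]
    positivity
  have h2 : 0 < nm b c (ml b c s w) := by
    rw [nm_ml]
    positivity
  obtain ⟨o, _, g2, g3⟩ := rp_eq A h1 h2 h
  have h3 : ml b c s w = ml b c s (ml b c o v) := by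
    rw [g3, ← ml_assoc, ← ml_assoc, ml_comm b c o s]
  have h4 := ml_cancel b c s w (ml b c o v) hs.ne' h3
  have h5 := A.rp_self w hw
  have h6 := A.rp_self v hv
  rw [← h5, h4, g2 v hv', h6]

theorem rp_gcd {v : El} (hv : 0 < nm b c v) :
    Int.gcd (A.rp v).1 (A.rp v).2 = Int.gcd v.1 v.2 := by
  obtain ⟨o, h1, _, h3⟩ := A.rp_unit v hv
  apply Nat.dvd_antisymm
  · have h4 := sba_gcd_dvd (b := b) (c := c) (cj b o) (A.rp v)
    rw [h3, sba_cj_ml h1, ← h3] at h4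
    exact h4
  · rw [h3]
    exact sba_gcd_dvd o v

theorem rp_sm {v : El} (hv : 0 < nm b c v) {k : ℕ} (hk : 1 ≤ k) :
    A.rp (sm k v) = sm k (A.rp v) := by
  obtain ⟨o, _, h2, h3⟩ := A.rp_unit v hv
  have hk' : (0 : ℤ) < k := by exact_mod_cast hk
  have h4 : 0 < nm b c (sm k v) := by
    rw [sba_nm_sm]
    positivity
  rw [← h2 _ h4, sba_ml_sm, ← h3]
  exact A.rp_self _ ((A.wd_sm _ _ hk).2 (A.rp_wd v hv))

theorem gg_rp (h : ℕ → ℤ) {v : El} (hv : 0 < nm b c v) :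
    gg b c h (A.rp v) = gg b c h v := by
  unfold gg
  rw [rp_nm A hv]

theorem u_ml {v w : El} (hv : 0 < nm b c v) (hw : 0 < nm b c w) : ∃ n : ℤ,
    A.u (A.rp (ml b c v w)) = A.u (A.rp v) + A.u (A.rp w) + n := by
  obtain ⟨n, hn⟩ := A.u_hom (A.rp v) (A.rp w) (A.rp_wd v hv) (A.rp_wd w hw)
  refine ⟨n, ?_⟩
  have hw' : 0 < nm b c (A.rp w) := by rw [rp_nm A hw]; exact hw
  have h1 : A.rp (ml b c (A.rp v) (A.rp w)) = A.rp (ml b c v w) := by
    rw [rp_ml_rp A hv hw', ml_comm, rp_ml_rp A hw hv, ml_comm]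
  rw [← h1]
  exact hn

theorem mem_MF {X : ℝ} {v : El} : v ∈ A.MF X ↔ A.wd v ∧ (nm b c v : ℝ) ≤ X := by
  unfold Ang0.MF
  rw [Set.Finite.mem_toFinset]
  rfl

end

end Pool.Agent.AQM.AB
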